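import Pool.Agent.Helper8.NW.Defs
import Mathlib.FieldTheory.IsAlgClosed.Basic
import Mathlib.LinearAlgebra.FreeModule.Finite.Basic

/-!
# The noncommutative Weil conjecture and Schur powers: package BAS
-/

open CategoryTheory MonoidalCategory Limits BraidedCategory

universe u v w

namespace Pool.Agent.Helper93.NW.BAS

open Pool.Agent.TH90.AB Pool.Agent.TH90.Kim Pool.Agent.Helper96.Kim Pool.Agent.Helper96.SP
  Pool.Agent.Helper8.NW

set_option linter.unusedSectionVars false

theorem bas_core {K V : Type*} [Field K] [CharZero K] [IsAlgClosed K] [AddCommGroup V] [Module K V]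
    [FiniteDimensional K V] (f p : V →ₗ[K] V) (hpp : ∀ x, p (p x) = x)
    (hfp : ∀ x, p (f x) = f (p x)) :
    ∃ (d : ℕ) (b : Module.Basis (Fin d) K V) (δ : Fin d → ℚ) (α : Fin d → K),
      (∀ i, δ i = 1 ∨ δ i = -1) ∧ (∀ i, p (b i) = (δ i : K) • b i) ∧
      ∀ i, b i ∈ Module.End.maxGenEigenspace f (α i) := by
  classical
  let s : Set V := {x | ∃ (δ : ℚ) (α : K), (δ = 1 ∨ δ = -1) ∧ p x = (δ : K) • x ∧
    x ∈ Module.End.maxGenEigenspace f α}
  have hs : ⊤ ≤ Submodule.span K s := by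
    rw [← Module.End.iSup_maxGenEigenspace_eq_top f]
    refine iSup_le fun α x hx => ?_
    have hcomm : Commute f p := LinearMap.ext fun y => (hfp y).symm
    have hpx : p x ∈ Module.End.maxGenEigenspace f α :=
      Module.End.mapsTo_maxGenEigenspace_of_comm hcomm α hx
    have h1 : x + p x ∈ s := ⟨1, α, Or.inl rfl, by
      rw [map_add, hpp, Rat.cast_one, one_smul, add_comm], Submodule.add_mem _ hx hpx⟩
    have h2 : x - p x ∈ s := ⟨-1, α, Or.inr rfl, by
      rw [map_sub, hpp, Rat.cast_neg, Rat.cast_one, neg_smul, one_smul, neg_sub],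
      Submodule.sub_mem _ hx hpx⟩
    have h3 : x = (2⁻¹ : K) • (x + p x) + (2⁻¹ : K) • (x - p x) := by
      rw [← smul_add, add_add_sub_cancel, ← two_smul K x, smul_smul,
        inv_mul_cancel₀ (two_ne_zero), one_smul]
    rw [h3]
    exact Submodule.add_mem _ (Submodule.smul_mem _ _ (Submodule.subset_span h1))
      (Submodule.smul_mem _ _ (Submodule.subset_span h2))
  let B := Module.Basis.ofSpan hs
  have hB : ∀ i, B i ∈ s := fun i => Module.Basis.ofSpan_subset hs ⟨i, rfl⟩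
  have hfin := Module.Finite.finite_basis B
  obtain ⟨d, ⟨e⟩⟩ := Finite.exists_equiv_fin ((linearIndepOn_empty K id).extend
    (Set.empty_subset s) : Set V)
  have hB' : ∀ i, (B.reindex e) i ∈ s := fun i => by
    rw [Module.Basis.reindex_apply]; exact hB _
  choose δ α h1 h2 h3 using hB'
  exact ⟨d, B.reindex e, δ, α, h1, h2, h3⟩

section cat

variable {𝒜 : Type u} [Category.{v} 𝒜] [MonoidalCategory 𝒜] [SymmetricCategory 𝒜]
  [Preadditive 𝒜] [MonoidalPreadditive 𝒜] [Linear ℚ 𝒜] [MonoidalLinear ℚ 𝒜]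
  {K : Type w} [Field K] [CharZero K] {F : Realisation 𝒜 K}

theorem gen_basis [IsAlgClosed K] (P : Frob F) (M : 𝒜) :
    ∃ (d : ℕ) (b : Module.Basis (Fin d) K (F.V M)) (δ : Fin d → ℚ) (α : Fin d → K),
      (∀ i, δ i = 1 ∨ δ i = -1) ∧ (∀ i, F.par M (b i) = (δ i : K) • b i) ∧
      ∀ i, b i ∈ Module.End.maxGenEigenspace (P.fr M) (α i) :=
  bas_core (P.fr M) (F.par M) (F.par_par M) (P.fr_par M)

end cat

end Pool.Agent.Helper93.NW.BAS
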